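import Pool.Agent.H487.G.An4
import Pool.Agent.H487.G.Fin1
import Pool.Agent.H487.G.Inf

/-!
# Weak BSD for twists of the non-CM curve `X_0(15)` with a nontrivial `Ш[2]` (second descent)

Let `E_D : y² = x³ - 12987 D² x - 263466 D³` be the quadratic twist by `D` of the modular curve `X_0(15)`,
which has no complex multiplication; `E_D ≅ (y² = x (x - 9 D) (x - 25 D))`.  Let `D > 1` be squarefree with
all its prime factors `≡ 1` or `49` modulo `60`, i.e. `-1`, `3` and `5` are squares modulo all of them.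
For such a `D` the 2-Selmer group of `E_D` is never the image of the torsion subgroup, so that the results
by a first descent say nothing.  We prove: if
* `Ker D`: the only divisors `d` of `D` with `(d/p) = 1` for the primes `p ∣ D/d` and `((D/d)/p) = 1` for
  the primes `p ∣ d` are `1` and `D` (the graph on the prime factors of `D`, in which `p`, `q` are joined
  if `(p/q) = -1`, has an odd number of spanning trees), and
* `Golden D`: the number of the prime factors `p` of `D` such that the golden ratio is not a square modulo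
  `p` (equivalently, `X⁴ - X² - 1` has no root modulo `p`) is odd,
then the `L`-function is entire, `L(E_D, 1) ≠ 0`, there are finitely many rational points, and
`Ш(E_D/ℚ)` has an element of order two.  There are infinitely many such `D` with exactly `k` prime factors
for each `k ≥ 2`.

Proof.  Analytic side: the algebraic part of `L(E_D, 1)` is the square of a Gross sum, which is compared
with geodesic cycles of discriminant `D` on `X_0(15)` and summed over the genus characters
(`Pool.Agent.H757_X15`, joint work of many helpers led by helper757); here the sum is computed modulo the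
next power of two by means of the fundamental unit of `ℚ(√D)`, which has norm `-1` if `Ker D`, and its
residue modulo `5` is compared with the golden ratio modulo `D` (`Unit`, `An1` to `An4`).  Algebraic side:
the first descent leaves, up to torsion, three classes, and for each of them a rational point on the
2-covering would give `Golden D` false by the reciprocity law (`Desc`, `CaseA`, `CaseB`, `CaseC`, written
by helper127, helper285, helper594, helper369).
-/

set_option autoImplicit false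

namespace Pool.Agent.Results.MP_8b7eba_nt.SecondDescentX15

/-- coefficients of the twist `E_D : y² = x³ + A D x + B D` of `X_0(15)` -/
def A (D : ℤ) : ℤ := -12987 * D ^ 2

/-- coefficients of the twist `E_D : y² = x³ + A D x + B D` of `X_0(15)` -/
def B (D : ℤ) : ℤ := -263466 * D ^ 3

/-- the curve `E_D` over `ℚ` -/
def E (D : ℤ) : WeierstrassCurve ℚ :=
  { a₁ := 0, a₂ := 0, a₃ := 0, a₄ := (A D : ℚ), a₆ := (B D : ℚ) }

/-- affine rational points of `E_D` -/
def RatPts (D : ℤ) : Set (ℚ × ℚ) := {z | z.2 ^ 2 = z.1 ^ 3 + (A D : ℚ) * z.1 + (B D : ℚ)}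

/-- `f` is an entire function which equals the Euler product of `E_D` over the primes
`p ∤ 2 (4 A³ + 27 B²)` on `Re s > 3 / 2`, as in the frozen statement of the problem -/
def IsL (D : ℤ) (f : ℂ → ℂ) : Prop :=
  Differentiable ℂ f ∧ ∀ s : ℂ, (3 : ℝ) / 2 < s.re →
    HasProd
      (fun p : {p : ℕ // p.Prime ∧ ¬ ((p : ℤ) ∣ 2 * (4 * A D ^ 3 + 27 * B D ^ 2))} =>
        ((1 : ℂ)
          - ((((p.1 : ℤ) - (Nat.card {q : ZMod p.1 × ZMod p.1 //
                q.2 ^ 2 = q.1 ^ 3 + (A D : ZMod p.1) * q.1 + (B D : ZMod p.1)} : ℤ)) : ℤ) : ℂ)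
              * ((p.1 : ℂ) ^ (-s))
          + (p.1 : ℂ) ^ (1 - 2 * s))⁻¹)
      (f s)

/-- `D > 1` is squarefree and all its prime factors are `1` or `49` modulo `60` -/
def Family (D : ℕ) : Prop :=
  1 < D ∧ Squarefree D ∧ ∀ p : ℕ, p.Prime → p ∣ D → p % 60 = 1 ∨ p % 60 = 49

/-- the only divisors `d` of `D` with `(d/p) = 1` for all primes `p ∣ D/d` and `((D/d)/p) = 1` for all
primes `p ∣ d` are `1` and `D` -/
def Ker (D : ℕ) : Prop := ∀ d : ℕ, d ∣ D →
  (∀ p : ℕ, p.Prime → p ∣ D → ¬ p ∣ d → jacobiSym d p = 1) →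
  (∀ p : ℕ, p.Prime → p ∣ d → jacobiSym ((D / d : ℕ) : ℤ) p = 1) → d = 1 ∨ d = D

/-- the number of the prime factors `p` of `D` such that `X⁴ - X² - 1` has no root modulo `p` is odd -/
def Golden (D : ℕ) : Prop :=
  Odd (Nat.card {p : ℕ // p.Prime ∧ p ∣ D ∧ ¬ ∃ x : ZMod p, x ^ 4 = x ^ 2 + 1})

section proof

open Pool.Agent.H487.G (Fam Gp gN)

theorem fam_iff {D : ℕ} : Family D ↔ Fam D := ⟨fun h => ⟨h.1, h.2.1, h.2.2⟩, fun h => ⟨h.gt, h.sq, h.pr⟩⟩

theorem golden_iff {D : ℕ} (hD0 : D ≠ 0) : Golden D ↔ Odd (gN D) := by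
  classical
  unfold Golden gN
  have e : Nat.card {p : ℕ // p.Prime ∧ p ∣ D ∧ ¬ ∃ x : ZMod p, x ^ 4 = x ^ 2 + 1} =
      (D.primeFactors.filter fun p => ¬ Gp p).card := by
    rw [← Fintype.card_coe, ← Nat.card_eq_fintype_card]
    refine Nat.card_congr (Equiv.subtypeEquivRight fun p => ?_)
    rw [Finset.mem_filter, Nat.mem_primeFactors]
    unfold Gp
    constructor
    · rintro ⟨h1, h2, h3⟩
      exact ⟨⟨h1, h2, hD0⟩, h3⟩
    · rintro ⟨⟨h1, h2, -⟩, h3⟩
      exact ⟨h1, h2, h3⟩
  rw [e]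

theorem finite_pts {D : ℤ} (hD : D ≠ 0) (h : Finite (E D).toAffine.Point) : (RatPts D).Finite := by
  have hΔ : (E D).Δ ≠ 0 := by
    have e : (E D).Δ = (-16 * (4 * (-12987) ^ 3 + 27 * 263466 ^ 2)) * (D : ℚ) ^ 6 := by
      unfold E A B WeierstrassCurve.Δ WeierstrassCurve.b₂ WeierstrassCurve.b₄ WeierstrassCurve.b₆
        WeierstrassCurve.b₈
      push_cast
      ring
    rw [e]
    have hDQ : (D : ℚ) ≠ 0 := by exact_mod_cast hD
    exact mul_ne_zero (by norm_num) (pow_ne_zero 6 hDQ)
  have : (E D).IsElliptic := ⟨isUnit_iff_ne_zero.2 hΔ⟩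
  have hns : ∀ z : RatPts D, (E D).toAffine.Nonsingular z.1.1 z.1.2 := by
    intro z
    refine WeierstrassCurve.Affine.equation_iff_nonsingular.mp ?_
    rw [WeierstrassCurve.Affine.equation_iff]
    have hz : z.1.2 ^ 2 = z.1.1 ^ 3 + (A D : ℚ) * z.1.1 + (B D : ℚ) := z.2
    show z.1.2 ^ 2 + 0 * z.1.1 * z.1.2 + 0 * z.1.2 = z.1.1 ^ 3 + 0 * z.1.1 ^ 2 + (A D : ℚ) * z.1.1 + (B D : ℚ)
    linear_combination hz
  have hinj : Function.Injective (fun z : RatPts D =>
      (WeierstrassCurve.Affine.Point.some z.1.1 z.1.2 (hns z) : (E D).toAffine.Point)) := by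
    intro z w hzw
    simp only [WeierstrassCurve.Affine.Point.some.injEq] at hzw
    exact Subtype.ext (Prod.ext hzw.1 hzw.2)
  have : Finite (RatPts D) := Finite.of_injective _ hinj
  exact Set.toFinite _

theorem weak {D : ℕ} (hF : Family D) (hK : Ker D) (hG : Golden D) :
    4 * A D ^ 3 + 27 * B D ^ 2 ≠ 0 ∧ (∃ f : ℂ → ℂ, IsL D f) ∧ (∀ f : ℂ → ℂ, IsL D f → f 1 ≠ 0) ∧
      (RatPts D).Finite ∧ ∃ x : Pool.Agent.TH841.SH.D.Sha (E D), x ≠ 0 ∧ 2 • x = 0 := by
  have hD : Fam D := fam_iff.1 hF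
  have hD0 : D ≠ 0 := by have := hD.gt; omega
  have hDZ : (D : ℤ) ≠ 0 := by exact_mod_cast hD0
  obtain ⟨s, hs⟩ := hD.exists_s
  have hσ := (Pool.Agent.H487.G.gold_iff hD hs).2 ((golden_iff hD0).1 hG)
  obtain ⟨f, hf, hfp, hf1⟩ := Pool.Agent.H487.G.short2 hD hK hs hσ
  have hL : IsL D f := ⟨hf, hfp⟩
  have hfin : Finite (E D).toAffine.Point := by
    have e : E D = WeierstrassCurve.mk 0 0 0 (-12987 * (D : ℚ) ^ 2) (-263466 * (D : ℚ) ^ 3) := by
      unfold E A B
      push_cast
      rfl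
    rw [e]
    exact Pool.Agent.H487.G.fin_short hD hK hs hσ
  refine ⟨?_, ⟨f, hL⟩, fun g hg => ?_, finite_pts hDZ hfin, ?_⟩
  · have e : 4 * A D ^ 3 + 27 * B D ^ 2 = (4 * (-12987) ^ 3 + 27 * 263466 ^ 2) * (D : ℤ) ^ 6 := by
      unfold A B
      ring
    rw [e]
    exact mul_ne_zero (by norm_num) (pow_ne_zero 6 hDZ)
  · have hg2 := hg.2
    rw [Pool.Agent.Y687.unique_f hg.1 hf hg2 hfp]
    exact hf1
  · obtain ⟨x, hx0, hx⟩ := Pool.Agent.H487.G.sha_short hD hK hs hσ
    exact ⟨x, hx0, (two_nsmul x).trans hx⟩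

end proof

/-- **Main theorem.** For all `D` of the family with `Ker D` and `Golden D` the conjecture holds for `E_D`:
the `L`-function has an entire continuation, every such continuation is nonzero at `1`, and there are
finitely many rational points; moreover `Ш(E_D/ℚ)` has an element of order two.  For each `k ≥ 2` there are
infinitely many such `D` with exactly `k` prime factors. -/
theorem result :
    (∀ D : ℕ, Family D → Ker D → Golden D →
      4 * A D ^ 3 + 27 * B D ^ 2 ≠ 0 ∧ (∃ f : ℂ → ℂ, IsL D f) ∧ (∀ f : ℂ → ℂ, IsL D f → f 1 ≠ 0) ∧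
        (RatPts D).Finite ∧ ∃ x : Pool.Agent.TH841.SH.D.Sha (E D), x ≠ 0 ∧ 2 • x = 0) ∧
    ∀ k : ℕ, 2 ≤ k → {D : ℕ | Family D ∧ Ker D ∧ Golden D ∧ D.primeFactors.card = k}.Infinite := by
  refine ⟨fun D hF hK hG => weak hF hK hG, fun k hk => ?_⟩
  refine (Pool.Agent.H487.G.infinite_D k hk).mono ?_
  rintro D ⟨h1, h2, h3, h4⟩
  exact ⟨fam_iff.2 h1, h2, (golden_iff h1.sq.ne_zero).2 h3, h4⟩

end Pool.Agent.Results.MP_8b7eba_nt.SecondDescentX15
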